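import Pool.Agent.Work.MP_1ce445_fx.EndV
import Pool.Agent.Work.MP_1ce445_fx.EndW
import Pool.Agent.Work.MP_1ce445_pl3.PL3
import Pool.Agent.Work.MP_1ce445_pln.Interface

/-!
The maximum product `P n k` of the total domination numbers over the `k`-factorizations of `K_n`
on the plateaus of its leading term which start at `k = 0` (index `M = 0`) and at
`k = (1 - 1/M) n`, `M ≥ 2`: the second order term on the whole plateau, and the exact values at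
the start (the staircase). The definitions of total dominating sets, `gammaT`, `IsFactorization`
and `P` are in `Pool/Agent/Work/MP_1ce445_co_56/Defs.lean`.
-/

namespace Pool.Agent.Work.MP_1ce445_s4

open Pool.Agent.Work.MP_1ce445_co_56

/-- `t` is the distance of `k` from the start of the staircase `M`: `k = t` for `M = 0`, and
`k = (1 - 1/M) n + t`, where `2 M` divides `n`, for `M ≥ 2`. -/
def At (M n k t : ℕ) : Prop :=
  (M = 0 ∧ k = t) ∨ (2 ≤ M ∧ 2 * M ∣ n ∧ k = n - n / M + t)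

/-- The number of special factors: `3` if `M = 0`, and `M` if `M ≥ 2`. -/
def sp (M : ℕ) : ℕ := if M = 0 then 3 else M

/-- `E` is the height of the step `m` of the staircase `M`. If `M = 0` it is the largest product
`a b c` of natural numbers with `a + b + c = 2 ⌊n/2⌋ + 6 m`, where for even `n` the numbers
`a, b, c` have to be even. If `M ≥ 2` it is `(n - n/M + m)^M`. -/
def IsStep (M m n E : ℕ) : Prop :=
  (M = 0 ∧ IsGreatest {p : ℕ | ∃ a b c : ℕ, a + b + c = 2 * (n / 2) + 6 * m ∧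
    (n % 2 = 0 → Even a ∧ Even b ∧ Even c) ∧ p = a * b * c} E) ∨
  (2 ≤ M ∧ E = (n - n / M + m) ^ M)

/-- The condition on `t` from below for the step `m`: `t ≥ C` and `t^(m-1) ≥ C n^(m-2)`. For the
first step, `m = 2`, it is also enough that: `M = 0`, `t ≥ 28`, and `n` is even or `n ≡ 1 (mod 6)`;
or `M = 0`, `t ≥ 15` and `18 ∣ n`; or `M ≥ 2` and `t ≥ M`. -/
def Above (M m : ℕ) (C : ℝ) (n t : ℕ) : Prop :=
  (C ≤ t ∧ C * (n : ℝ) ^ (m - 2) ≤ (t : ℝ) ^ (m - 1)) ∨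
  (m = 2 ∧ M = 0 ∧ 28 ≤ t ∧ (n % 2 = 0 ∨ n % 6 = 1)) ∨
  (m = 2 ∧ M = 0 ∧ 15 ≤ t ∧ 18 ∣ n) ∨
  (m = 2 ∧ 2 ≤ M ∧ M ≤ t)

/-- The quotient `x = s t / n`, where `s = sp M`. -/
noncomputable def xx (M n t : ℕ) : ℝ := (sp M : ℝ) * t / n

/-- `r = log n / (- log x)`. -/
noncomputable def rr (M n t : ℕ) : ℝ := Real.log n / (-Real.log (xx M n t))

/-- The whole plateau: `k ≤ 3 n / 25` if `M = 0`, and `t ≥ M`,
`k ≤ (1 - 1/(M+1) - 1/(4 M^4)) n` if `M ≥ 2`. -/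
def Plateau (M n k t : ℕ) : Prop :=
  (M = 0 ∧ 25 * k ≤ 3 * n) ∨
  (2 ≤ M ∧ M ≤ t ∧ (k : ℝ) ≤ (1 - 1 / ((M : ℝ) + 1) - 1 / (4 * (M : ℝ) ^ 4)) * n)

/-- `P n k = N^(k-s) (a N + b R)^s`, where `N = 2 ⌊n/2⌋`, `s = sp M`, and `a = 1/3`, `b = 2` if
`M = 0`, `a = 1 - 1/M`, `b = 1` if `M ≥ 2`. -/
def IsR (M n k : ℕ) (R : ℝ) : Prop :=
  (M = 0 ∧ (P n k : ℝ) = ((2 * (n / 2) : ℕ) : ℝ) ^ (k - sp M) *
    (1 / 3 * ((2 * (n / 2) : ℕ) : ℝ) + 2 * R) ^ sp M) ∨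
  (2 ≤ M ∧ (P n k : ℝ) = ((2 * (n / 2) : ℕ) : ℝ) ^ (k - sp M) *
    ((1 - 1 / (M : ℝ)) * ((2 * (n / 2) : ℕ) : ℝ) + R) ^ sp M)

/-- The statement on the first plateau, `k ≤ 3 n/25`. -/
def FirstP : Prop :=
  ∀ ε : ℝ, 0 < ε → ε < 1 → ∃ n0 : ℕ, ∀ n k : ℕ, n0 ≤ n → 3 ≤ k → 25 * k ≤ 3 * n →
    ∃ R : ℝ, (P n k : ℝ) = (Pool.Agent.Work.MP_1ce445_lin.NN n : ℝ) ^ (k - 3) *
        ((Pool.Agent.Work.MP_1ce445_lin.NN n : ℝ) / 3 + R) ^ 3 ∧
      2 * (1 - ε) * Pool.Agent.Work.MP_1ce445_pl3.rh n k ≤ R ∧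
      R ≤ 2 * (1 + ε) * Pool.Agent.Work.MP_1ce445_pl3.rh n k + 2

def SecondP : Prop := Pool.Agent.Work.MP_1ce445_pln.Stmt_PLV

/-- the plateau `M = 0` -/
theorem plateau_zero (hF : FirstP) (ε : ℝ) (hε : 0 < ε) (hε1 : ε < 1) :
    ∃ n0 : ℕ, ∀ n k t : ℕ, n0 ≤ n → 3 ≤ k → At 0 n k t → Plateau 0 n k t →
      ∃ R : ℝ, IsR 0 n k R ∧ (1 - ε) * rr 0 n t ≤ R ∧ R ≤ (1 + ε) * rr 0 n t + 1 := by
  obtain ⟨n0, h⟩ := hF ε hε hε1
  refine ⟨n0, ?_⟩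
  rintro n k t hn hk (⟨-, rfl⟩ | ⟨h2, -⟩) (⟨-, hc⟩ | ⟨h2', -⟩)
  · obtain ⟨R, h1, h2, h3⟩ := h n k hn hk hc
    have hr : Pool.Agent.Work.MP_1ce445_pl3.rh n k = rr 0 n k := by
      unfold Pool.Agent.Work.MP_1ce445_pl3.rh rr xx sp
      norm_num
    rw [hr] at h2 h3
    refine ⟨R / 2, Or.inl ⟨rfl, ?_⟩, by linarith, by linarith⟩
    have hs : sp 0 = 3 := rfl
    rw [hs, h1]
    unfold Pool.Agent.Work.MP_1ce445_lin.NN
    have e : 1 / 3 * ((2 * (n / 2) : ℕ) : ℝ) + 2 * (R / 2) = ((2 * (n / 2) : ℕ) : ℝ) / 3 + R := by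
      ring
    rw [e]
  · omega
  · omega
  · omega

/-- the plateaus `M ≥ 2` -/
theorem plateau_two (M : ℕ) (hM : 2 ≤ M) (ε : ℝ) (hε : 0 < ε) (hε1 : ε < 1) (hPV : SecondP) :
    ∃ n0 : ℕ, ∀ n k t : ℕ, n0 ≤ n → 3 ≤ k → At M n k t → Plateau M n k t →
      ∃ R : ℝ, IsR M n k R ∧ (1 - ε) * rr M n t ≤ R ∧ R ≤ (1 + ε) * rr M n t + 1 := by
  obtain ⟨C, δ, n0, -, h⟩ := hPV M 2 hM le_rfl ε hε hε1
  refine ⟨n0 + 1, ?_⟩
  rintro n k t hn hk (⟨h2, -⟩ | ⟨-, hd, hkt⟩) (⟨h2', -⟩ | ⟨-, hMt, hc⟩)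
  · omega
  · omega
  · omega
  · have hn0 : (0 : ℝ) < n := by
      have : 0 < n := by omega
      exact_mod_cast this
    have hM0 : (0 : ℝ) < M := by
      have : 0 < M := by omega
      exact_mod_cast this
    obtain ⟨q, hq⟩ := hd
    have hdiv : n / M = 2 * q := by
      rw [hq, show 2 * M * q = M * (2 * q) by ring]
      exact Nat.mul_div_cancel_left _ (by omega)
    have hN : 2 * (n / 2) = n := by
      have h3 : n / 2 = M * q := by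
        rw [hq, show 2 * M * q = 2 * (M * q) by ring]
        exact Nat.mul_div_cancel_left _ (by norm_num)
      rw [h3, hq]
      ring
    have hle : 2 * q ≤ n := by
      rw [hq, mul_assoc]
      exact Nat.mul_le_mul_left 2 (Nat.le_mul_of_pos_left q (by omega))
    have hk1 : k + 2 * q = n + t := by
      rw [hkt, hdiv]
      omega
    have hMk : M * k + n = M * n + M * t := by
      have h3 : M * (k + 2 * q) = M * (n + t) := by rw [hk1]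
      have h4 : M * (2 * q) = n := by rw [hq]; ring
      rw [mul_add, mul_add, h4] at h3
      exact h3
    have hlow : (M - 1) * n + M * M ≤ M * k := by
      obtain ⟨m, rfl⟩ : ∃ m, M = m + 1 := ⟨M - 1, by omega⟩
      have h3 : (m + 1 - 1) * n + n = (m + 1) * n := by
        rw [Nat.add_sub_cancel]
        ring
      have h4 : (m + 1) * (m + 1) ≤ (m + 1) * t := Nat.mul_le_mul_left _ hMt
      omega
    have hcc : (k : ℝ) / n ≤ Pool.Agent.Work.MP_1ce445_pln.cend M := by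
      rw [div_le_iff₀ hn0]
      unfold Pool.Agent.Work.MP_1ce445_pln.cend
      exact hc
    have htau : Pool.Agent.Work.MP_1ce445_plt.tau n k M = xx M n t := by
      unfold Pool.Agent.Work.MP_1ce445_plt.tau xx sp
      rw [if_neg (by omega)]
      have h3 : (M : ℝ) * k + n = M * n + M * t := by exact_mod_cast hMk
      field_simp
      linarith
    obtain ⟨R, -, h1, h2, h3, -⟩ := h n k (by omega) ⟨q, hq⟩ hlow hcc
    rw [htau] at h2 h3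
    refine ⟨R, Or.inr ⟨hM, ?_⟩, h2, h3⟩
    have hs : sp M = M := if_neg (by omega)
    rw [hs, hN, h1]
    congr 2
    field_simp

/-- the staircases -/
theorem steps (M m : ℕ) (hM : M ≠ 1) (hm : 2 ≤ m) :
    ∃ (C δ : ℝ) (n0 : ℕ), 0 < δ ∧ ∀ n k t E : ℕ, n0 ≤ n → 3 ≤ k → At M n k t →
      IsStep M m n E →
      ((t : ℝ) ^ m ≤ δ * (n : ℝ) ^ (m - 1) → P n k ≤ (2 * (n / 2)) ^ (k - sp M) * E) ∧
      (Above M m C n t → (4 * M + 18) * t ≤ n → (2 * (n / 2)) ^ (k - sp M) * E ≤ P n k) ∧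
      (Above M m C n t → (t : ℝ) ^ m ≤ δ * (n : ℝ) ^ (m - 1) →
        P n k = (2 * (n / 2)) ^ (k - sp M) * E) ∧
      (M = 0 → m = 2 → n % 2 = 0 → k ≤ 14 → P n k < (2 * (n / 2)) ^ (k - sp M) * E) := by
  by_cases h0 : M = 0
  · subst h0
    obtain ⟨C, δ, n0, hδ, h⟩ := Pool.Agent.Work.MP_1ce445_fx.EndW_first m hm
    refine ⟨C, δ, n0, hδ, ?_⟩
    rintro n k t E hn hk (⟨-, rfl⟩ | ⟨h2, -⟩) (⟨-, hE⟩ | ⟨h2', -⟩)
    · have hE' : E = Pool.Agent.Work.MP_1ce445_fx.EV m n :=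
        hE.unique (Pool.Agent.Work.MP_1ce445_fx.finalMax m n)
      subst hE'
      have hsp : sp 0 = 3 := rfl
      rw [hsp]
      obtain ⟨h1, h2, h3⟩ := h n k hn hk
      have hA : Above 0 m C n k →
          ((C ≤ k ∧ C * (n : ℝ) ^ (m - 2) ≤ (k : ℝ) ^ (m - 1)) ∨
          (m = 2 ∧ ((28 ≤ k ∧ (n % 2 = 0 ∨ n % 6 = 1)) ∨ (15 ≤ k ∧ 18 ∣ n)))) := by
        rintro (h4 | ⟨h4, -, h5⟩ | ⟨h4, -, h5⟩ | ⟨-, h5, -⟩)
        · exact Or.inl h4
        · exact Or.inr ⟨h4, Or.inl h5⟩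
        · exact Or.inr ⟨h4, Or.inr h5⟩
        · omega
      exact ⟨fun h4 => (h1 h4).2, fun h4 h5 => h2 (hA h4) (by omega),
        fun h4 h5 => le_antisymm (h1 h5).2 (h2 (hA h4) (h1 h5).1), fun _ => h3⟩
    · omega
    · omega
    · omega
  · have hM2 : 2 ≤ M := by omega
    obtain ⟨C, δ, n0, hδ, h⟩ := Pool.Agent.Work.MP_1ce445_fx.EndV_second M m hM2 hm
    refine ⟨C, δ, n0, hδ, ?_⟩
    rintro n k t E hn hk (⟨h2, -⟩ | ⟨-, hd, rfl⟩) (⟨h2', -⟩ | ⟨-, rfl⟩)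
    · omega
    · omega
    · omega
    · have hsp : sp M = M := if_neg h0
      have hN : 2 * (n / 2) = n := by
        obtain ⟨q, rfl⟩ := hd
        have : 2 * M * q / 2 = M * q := by
          rw [show 2 * M * q = 2 * (M * q) by ring]
          exact Nat.mul_div_cancel_left _ (by norm_num)
        rw [this]
        ring
      rw [hsp, hN]
      obtain ⟨h1, h2⟩ := h n t hn hd
      have hA : Above M m C n t →
          ((C ≤ t ∧ C * (n : ℝ) ^ (m - 2) ≤ (t : ℝ) ^ (m - 1)) ∨ (m = 2 ∧ M ≤ t)) := by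
        rintro (h4 | ⟨-, h4, -⟩ | ⟨-, h4, -⟩ | ⟨h4, -, h5⟩)
        · exact Or.inl h4
        · exact absurd h4 h0
        · exact absurd h4 h0
        · exact Or.inr ⟨h4, h5⟩
      exact ⟨fun h4 => (h1 h4).2, fun h4 h5 => h2 (hA h4) h5,
        fun h4 h5 => le_antisymm (h1 h5).2 (h2 (hA h4) (h1 h5).1), fun h4 => absurd h4 h0⟩

/-- For every `M ≠ 1`, `m ≥ 2` and `0 < ε < 1` there are `C`, `δ > 0` and `n0` such that for all
`n ≥ n0`, `k ≥ 3` at the distance `t` from the start of the plateau `M`, with `N = 2 ⌊n/2⌋`: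
on the whole plateau `P n k = N^(k-s) (a N + b R)^s` (`IsR`) with
`(1 - ε) r ≤ R ≤ (1 + ε) r + 1`; and for the height `E` of the step `m`:
`P n k ≤ N^(k - s) E` if `t^m ≤ δ n^(m-1)`; `P n k ≥ N^(k - s) E` if `Above` and
`(4 M + 18) t ≤ n`; equality if `Above` and `t^m ≤ δ n^(m-1)`; and for `M = 0`, `m = 2`, `n` even,
`k ≤ 14` the strict inequality `P n k < N^(k-3) E`. -/
theorem result (hF0 : FirstP) (hS0 : SecondP) (M m : ℕ) (hM : M ≠ 1) (hm : 2 ≤ m) (ε : ℝ) (hε : 0 < ε) (hε1 : ε < 1) :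
    ∃ (C δ : ℝ) (n0 : ℕ), 0 < δ ∧ ∀ n k t : ℕ, n0 ≤ n → 3 ≤ k → At M n k t →
      (Plateau M n k t →
        ∃ R : ℝ, IsR M n k R ∧ (1 - ε) * rr M n t ≤ R ∧ R ≤ (1 + ε) * rr M n t + 1) ∧
      ∀ E : ℕ, IsStep M m n E →
      ((t : ℝ) ^ m ≤ δ * (n : ℝ) ^ (m - 1) → P n k ≤ (2 * (n / 2)) ^ (k - sp M) * E) ∧
      (Above M m C n t → (4 * M + 18) * t ≤ n → (2 * (n / 2)) ^ (k - sp M) * E ≤ P n k) ∧
      (Above M m C n t → (t : ℝ) ^ m ≤ δ * (n : ℝ) ^ (m - 1) →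
        P n k = (2 * (n / 2)) ^ (k - sp M) * E) ∧
      (M = 0 → m = 2 → n % 2 = 0 → k ≤ 14 → P n k < (2 * (n / 2)) ^ (k - sp M) * E) := by
  obtain ⟨C, δ, n0, hδ, h⟩ := steps M m hM hm
  obtain ⟨n1, h'⟩ : ∃ n1 : ℕ, ∀ n k t : ℕ, n1 ≤ n → 3 ≤ k → At M n k t → Plateau M n k t →
      ∃ R : ℝ, IsR M n k R ∧ (1 - ε) * rr M n t ≤ R ∧ R ≤ (1 + ε) * rr M n t + 1 := by
    by_cases h0 : M = 0
    · subst h0
      exact plateau_zero hF0 ε hε hε1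
    · exact plateau_two M (by omega) ε hε hε1 hS0
  refine ⟨C, δ, n0 + n1, hδ, fun n k t hn hk hA => ⟨fun hp => h' n k t (by omega) hk hA hp,
    fun E hE => h n k t E (by omega) hk hA hE⟩⟩

end Pool.Agent.Work.MP_1ce445_s4
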