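import Pool.Agent.Work.MP_1ce445_fx.EndV
import Pool.Agent.Work.MP_1ce445_fx.EndW
import Pool.Agent.Work.MP_1ce445_pl4.All2
import Pool.Agent.Work.MP_1ce445_plo.Interface

/-!
The maximum product `P n k` of the total domination numbers over the `k`-factorizations of `K_n`
on the plateaus of its leading term which start at `k = 0` (index `M = 0`) and at
`k = (1 - 1/M) n`, `M ≥ 2`: the second order term for all `n`, and the exact values at the start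
(the staircase). The definitions of total dominating sets, `gammaT`, `IsFactorization`
and `P` are in `Pool/Agent/Work/MP_1ce445_co_56/Defs.lean`.
-/

namespace Pool.Agent.Work.MP_1ce445_s4v

open Pool.Agent.Work.MP_1ce445_co_56

/-- `t` is the distance of `k` from the start of the staircase `M`: `k = t` for `M = 0`, and
`k = (1 - 1/M) n + t`, where `2 M` divides `n`, for `M ≥ 2`. -/
def At (M n k t : ℕ) : Prop :=
  (M = 0 ∧ k = t) ∨ (2 ≤ M ∧ 2 * M ∣ n ∧ k = n - n / M + t)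

/-- The number of special factors: `3` if `M = 0`, and `M` if `M ≥ 2`. -/
def sp (M : ℕ) : ℕ := if M = 0 then 3 else M

/-- `E` is the height of the step `m` of the staircase `M`. If `M = 0` it is the largest product
`a b c` of natural numbers with `a + b + c = 2 ⌊n/2⌋ + 6 m`, where for even `n` the numbers
`a, b, c` have to be even. If `M ≥ 2` it is `(n - n/M + m)^M`. -/
def IsStep (M m n E : ℕ) : Prop :=
  (M = 0 ∧ IsGreatest {p : ℕ | ∃ a b c : ℕ, a + b + c = 2 * (n / 2) + 6 * m ∧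
    (n % 2 = 0 → Even a ∧ Even b ∧ Even c) ∧ p = a * b * c} E) ∨
  (2 ≤ M ∧ E = (n - n / M + m) ^ M)

/-- The condition on `t` from below for the step `m`: `t ≥ C` and `t^(m-1) ≥ C n^(m-2)`. For the
first step, `m = 2`, it is also enough that: `M = 0`, `t ≥ 28`, and `n` is even or `n ≡ 1 (mod 6)`;
or `M = 0`, `t ≥ 15` and `18 ∣ n`; or `M ≥ 2` and `t ≥ M`. -/
def Above (M m : ℕ) (C : ℝ) (n t : ℕ) : Prop :=
  (C ≤ t ∧ C * (n : ℝ) ^ (m - 2) ≤ (t : ℝ) ^ (m - 1)) ∨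
  (m = 2 ∧ M = 0 ∧ 28 ≤ t ∧ (n % 2 = 0 ∨ n % 6 = 1)) ∨
  (m = 2 ∧ M = 0 ∧ 15 ≤ t ∧ 18 ∣ n) ∨
  (m = 2 ∧ 2 ≤ M ∧ M ≤ t)

/-- The quotient `x`: `3 k / n` if `M = 0`, and `M k / n - (M - 1)` if `M ≥ 2`. -/
noncomputable def xx (M n k : ℕ) : ℝ :=
  if M = 0 then 3 * (k : ℝ) / n else M * (k : ℝ) / n - ((M : ℝ) - 1)

/-- `r = log n / (- log x)`. -/
noncomputable def rr (M n k : ℕ) : ℝ := Real.log n / (-Real.log (xx M n k))

/-- The plateau: `k ≤ 3 n / 25` if `M = 0`, and `k ≥ (1 - 1/M) n + 3 M`,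
`k ≤ (1 - 1/(M+1) - 1/(4 M^4)) N`, where `N = 2 ⌊n/2⌋`, if `M ≥ 2`. -/
def Plateau (M n k : ℕ) : Prop :=
  (M = 0 ∧ 25 * k ≤ 3 * n) ∨
  (2 ≤ M ∧ M * n + 3 * M * M ≤ M * k + n ∧
    (k : ℝ) ≤ (1 - 1 / ((M : ℝ) + 1) - 1 / (4 * (M : ℝ) ^ 4)) * ((2 * (n / 2) : ℕ) : ℝ))

/-- `P n k = N^(k-s) (a N + b R)^s`, where `N = 2 ⌊n/2⌋`, `s = sp M`, and `a = 1/3`, `b = 2` if
`M = 0`, `a = 1 - 1/M`, `b = 1` if `M ≥ 2`. -/
def IsR (M n k : ℕ) (R : ℝ) : Prop :=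
  (M = 0 ∧ (P n k : ℝ) = ((2 * (n / 2) : ℕ) : ℝ) ^ (k - sp M) *
    (1 / 3 * ((2 * (n / 2) : ℕ) : ℝ) + 2 * R) ^ sp M) ∨
  (2 ≤ M ∧ (P n k : ℝ) = ((2 * (n / 2) : ℕ) : ℝ) ^ (k - sp M) *
    ((1 - 1 / (M : ℝ)) * ((2 * (n / 2) : ℕ) : ℝ) + R) ^ sp M)

/-- the plateau `M = 0` -/
theorem plateau_zero (ε : ℝ) (hε : 0 < ε) (hε1 : ε < 1) :
    ∃ n0 : ℕ, ∀ n k : ℕ, n0 ≤ n → 3 ≤ k → Plateau 0 n k →
      ∃ R : ℝ, IsR 0 n k R ∧ (1 - ε) * rr 0 n k ≤ R ∧ R ≤ (1 + ε) * rr 0 n k + 1 := by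
  obtain ⟨n0, h⟩ := Pool.Agent.Work.MP_1ce445_pl4.h_PLF ε hε hε1
  refine ⟨n0, ?_⟩
  rintro n k hn hk (⟨-, hc⟩ | ⟨h2', -⟩)
  · obtain ⟨R, h1, h2, h3⟩ := h n k hn hk hc
    have hr : Pool.Agent.Work.MP_1ce445_pl3.rh n k = rr 0 n k := by
      unfold Pool.Agent.Work.MP_1ce445_pl3.rh rr xx
      rw [if_pos rfl]
    rw [hr] at h2 h3
    refine ⟨R / 2, Or.inl ⟨rfl, ?_⟩, by linarith, by linarith⟩
    have hs : sp 0 = 3 := rfl
    rw [hs, h1]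
    unfold Pool.Agent.Work.MP_1ce445_lin.NN
    have e : 1 / 3 * ((2 * (n / 2) : ℕ) : ℝ) + 2 * (R / 2) = ((2 * (n / 2) : ℕ) : ℝ) / 3 + R := by
      ring
    rw [e]
  · omega

/-- the plateaus `M ≥ 2` -/
theorem plateau_two (M : ℕ) (hM : 2 ≤ M) (ε : ℝ) (hε : 0 < ε) (hε1 : ε < 1) (hO : Pool.Agent.Work.MP_1ce445_plo.Stmt_OPE) :
    ∃ (C : ℝ) (n0 : ℕ), ∀ n k : ℕ, n0 ≤ n → Plateau M n k →
      ∃ R : ℝ, IsR M n k R ∧ (1 - ε) * rr M n k ≤ R ∧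
        R ≤ (1 + ε) * rr M n k + (if Even n then 1 else C) := by
  obtain ⟨C, n0, h⟩ := hO M hM ε hε hε1
  refine ⟨C, n0, ?_⟩
  rintro n k hn (⟨h2', -⟩ | ⟨-, hMt, hc⟩)
  · omega
  · have hlow : (M - 1) * n + 3 * M * M ≤ M * k := by
      obtain ⟨m, rfl⟩ : ∃ m, M = m + 1 := ⟨M - 1, by omega⟩
      have h3 : (m + 1 - 1) * n + n = (m + 1) * n := by
        rw [Nat.add_sub_cancel]
        ring
      omega
    obtain ⟨R, h1, h2, h3⟩ := h n k hn hlow hc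
    have htau : Pool.Agent.Work.MP_1ce445_plt.tau n k M = xx M n k := by
      unfold Pool.Agent.Work.MP_1ce445_plt.tau xx
      rw [if_neg (by omega)]
    rw [htau] at h2 h3
    refine ⟨R, Or.inr ⟨hM, ?_⟩, h2, h3⟩
    have hs : sp M = M := if_neg (by omega)
    rw [hs, h1]
    rfl

/-- the staircases -/
theorem steps (M m : ℕ) (hM : M ≠ 1) (hm : 2 ≤ m) :
    ∃ (C δ : ℝ) (n0 : ℕ), 0 < δ ∧ ∀ n k t E : ℕ, n0 ≤ n → 3 ≤ k → At M n k t →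
      IsStep M m n E →
      ((t : ℝ) ^ m ≤ δ * (n : ℝ) ^ (m - 1) → P n k ≤ (2 * (n / 2)) ^ (k - sp M) * E) ∧
      (Above M m C n t → (4 * M + 18) * t ≤ n → (2 * (n / 2)) ^ (k - sp M) * E ≤ P n k) ∧
      (Above M m C n t → (t : ℝ) ^ m ≤ δ * (n : ℝ) ^ (m - 1) →
        P n k = (2 * (n / 2)) ^ (k - sp M) * E) ∧
      (M = 0 → m = 2 → n % 2 = 0 → k ≤ 14 → P n k < (2 * (n / 2)) ^ (k - sp M) * E) := by
  by_cases h0 : M = 0
  · subst h0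
    obtain ⟨C, δ, n0, hδ, h⟩ := Pool.Agent.Work.MP_1ce445_fx.EndW_first m hm
    refine ⟨C, δ, n0, hδ, ?_⟩
    rintro n k t E hn hk (⟨-, rfl⟩ | ⟨h2, -⟩) (⟨-, hE⟩ | ⟨h2', -⟩)
    · have hE' : E = Pool.Agent.Work.MP_1ce445_fx.EV m n :=
        hE.unique (Pool.Agent.Work.MP_1ce445_fx.finalMax m n)
      subst hE'
      have hsp : sp 0 = 3 := rfl
      rw [hsp]
      obtain ⟨h1, h2, h3⟩ := h n k hn hk
      have hA : Above 0 m C n k →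
          ((C ≤ k ∧ C * (n : ℝ) ^ (m - 2) ≤ (k : ℝ) ^ (m - 1)) ∨
          (m = 2 ∧ ((28 ≤ k ∧ (n % 2 = 0 ∨ n % 6 = 1)) ∨ (15 ≤ k ∧ 18 ∣ n)))) := by
        rintro (h4 | ⟨h4, -, h5⟩ | ⟨h4, -, h5⟩ | ⟨-, h5, -⟩)
        · exact Or.inl h4
        · exact Or.inr ⟨h4, Or.inl h5⟩
        · exact Or.inr ⟨h4, Or.inr h5⟩
        · omega
      exact ⟨fun h4 => (h1 h4).2, fun h4 h5 => h2 (hA h4) (by omega),
        fun h4 h5 => le_antisymm (h1 h5).2 (h2 (hA h4) (h1 h5).1), fun _ => h3⟩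
    · omega
    · omega
    · omega
  · have hM2 : 2 ≤ M := by omega
    obtain ⟨C, δ, n0, hδ, h⟩ := Pool.Agent.Work.MP_1ce445_fx.EndV_second M m hM2 hm
    refine ⟨C, δ, n0, hδ, ?_⟩
    rintro n k t E hn hk (⟨h2, -⟩ | ⟨-, hd, rfl⟩) (⟨h2', -⟩ | ⟨-, rfl⟩)
    · omega
    · omega
    · omega
    · have hsp : sp M = M := if_neg h0
      have hN : 2 * (n / 2) = n := by
        obtain ⟨q, rfl⟩ := hd
        have : 2 * M * q / 2 = M * q := by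
          rw [show 2 * M * q = 2 * (M * q) by ring]
          exact Nat.mul_div_cancel_left _ (by norm_num)
        rw [this]
        ring
      rw [hsp, hN]
      obtain ⟨h1, h2⟩ := h n t hn hd
      have hA : Above M m C n t →
          ((C ≤ t ∧ C * (n : ℝ) ^ (m - 2) ≤ (t : ℝ) ^ (m - 1)) ∨ (m = 2 ∧ M ≤ t)) := by
        rintro (h4 | ⟨-, h4, -⟩ | ⟨-, h4, -⟩ | ⟨h4, -, h5⟩)
        · exact Or.inl h4
        · exact absurd h4 h0
        · exact absurd h4 h0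
        · exact Or.inr ⟨h4, h5⟩
      exact ⟨fun h4 => (h1 h4).2, fun h4 h5 => h2 (hA h4) h5,
        fun h4 h5 => le_antisymm (h1 h5).2 (h2 (hA h4) (h1 h5).1), fun h4 => absurd h4 h0⟩

/-- For every `M ≠ 1`, `m ≥ 2` and `0 < ε < 1` there are `C`, `n0` and `δ > 0` such that for all
`n ≥ n0`, `k ≥ 3`, with `N = 2 ⌊n/2⌋` and `s = sp M`: on the whole range `Plateau`,
`P n k = N^(k-s) (a N + b R)^s` (`IsR`) with `(1 - ε) r ≤ R ≤ (1 + ε) r + C`, and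
`R ≤ (1 + ε) r + 1` if `M = 0` or `n` is even; and if `k` is at the distance `t` from the start of
the staircase `M` (`At`), `t^m ≤ δ n^(m-1)`, and `E` is the height of the step `m`, then
`P n k ≤ N^(k-s) E`, with equality if `Above`, and with strict inequality if `M = 0`, `m = 2`, `n` is
even and `k ≤ 14`. -/
theorem result (hO : Pool.Agent.Work.MP_1ce445_plo.Stmt_OPE) (M m : ℕ) (hM : M ≠ 1) (hm : 2 ≤ m) (ε : ℝ) (hε : 0 < ε) (hε1 : ε < 1) :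
    ∃ (C δ : ℝ) (n0 : ℕ), 0 < δ ∧ ∀ n k : ℕ, n0 ≤ n → 3 ≤ k →
      (Plateau M n k → ∃ R : ℝ, IsR M n k R ∧ (1 - ε) * rr M n k ≤ R ∧
        R ≤ (1 + ε) * rr M n k + C ∧ (M = 0 ∨ n % 2 = 0 → R ≤ (1 + ε) * rr M n k + 1)) ∧
      ∀ t E : ℕ, At M n k t → (t : ℝ) ^ m ≤ δ * (n : ℝ) ^ (m - 1) → IsStep M m n E →
        P n k ≤ (2 * (n / 2)) ^ (k - sp M) * E ∧
        (Above M m C n t → P n k = (2 * (n / 2)) ^ (k - sp M) * E) ∧
        (M = 0 → m = 2 → n % 2 = 0 → k ≤ 14 → P n k < (2 * (n / 2)) ^ (k - sp M) * E) := by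
  obtain ⟨C1, δ, n0, hδ, h⟩ := steps M m hM hm
  obtain ⟨C2, n1, h'⟩ : ∃ (C : ℝ) (n1 : ℕ), ∀ n k : ℕ, n1 ≤ n → 3 ≤ k → Plateau M n k →
      ∃ R : ℝ, IsR M n k R ∧ (1 - ε) * rr M n k ≤ R ∧
        R ≤ (1 + ε) * rr M n k + (if M = 0 ∨ Even n then 1 else C) := by
    by_cases h0 : M = 0
    · subst h0
      obtain ⟨n1, h1⟩ := plateau_zero ε hε hε1
      refine ⟨1, n1, fun n k hn hk hp => ?_⟩
      rw [if_pos (Or.inl rfl)]
      exact h1 n k hn hk hp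
    · obtain ⟨C, n1, h1⟩ := plateau_two M (by omega) ε hε hε1 hO
      refine ⟨C, n1, fun n k hn hk hp => ?_⟩
      obtain ⟨R, h2, h3, h4⟩ := h1 n k hn hp
      refine ⟨R, h2, h3, ?_⟩
      by_cases he : Even n
      · rw [if_pos (Or.inr he)]
        rwa [if_pos he] at h4
      · rw [if_neg (by rintro (h5 | h5) <;> contradiction)]
        rwa [if_neg he] at h4
  refine ⟨max C1 (max C2 1), δ, n0 + n1, hδ, fun n k hn hk => ⟨fun hp => ?_,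
    fun t E hA ht hE => ?_⟩⟩
  · obtain ⟨R, h2, h3, h4⟩ := h' n k (by omega) hk hp
    refine ⟨R, h2, h3, ?_, ?_⟩
    · refine h4.trans (add_le_add le_rfl ?_)
      split_ifs
      · exact (le_max_right _ _).trans (le_max_right _ _)
      · exact (le_max_left _ _).trans (le_max_right _ _)
    · intro h5
      rw [if_pos (h5.imp id Nat.even_iff.2)] at h4
      exact h4
  · obtain ⟨h1, h2, h3, h4⟩ := h n k t E (by omega) hk hA hE
    refine ⟨h1 ht, fun hB => h3 ?_ ht, h4⟩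
    rcases hB with ⟨h5, h6⟩ | h5
    · have h7 : C1 ≤ max C1 (max C2 1) := le_max_left _ _
      refine Or.inl ⟨h7.trans h5, le_trans (mul_le_mul_of_nonneg_right h7 (by positivity)) h6⟩
    · exact Or.inr h5

end Pool.Agent.Work.MP_1ce445_s4v
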